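import Pool.Agent.Helper15.FST.St

/-! FIRST, the linear classes: members with small errors (`FA'`), the rows `ROW_A'` (helper17) and `ROW_LIMG` (helper62,
replaces LIMF and FACL); the zooms of members (`ZmB`, rows Z1 and Z2). -/

set_option autoImplicit false

namespace Pool.Agent.Helper62.FST

open Finset Filter Topology Matrix Pool.Agent.Helper69.RK Pool.Agent.Helper31.EC Pool.Agent.Helper31.EC.Sp
open Pool.Agent.Helper40.EL Pool.Agent.Helper89.LX Pool.Agent.Helper84.MT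
open Pool.Agent.Helper49.MD Pool.Agent.Helper36.AM
open Pool.Agent.Helper7.RD (RW)
open Pool.Agent.Helper29.MX
open Pool.Agent.Helper15.FST (FC Loc)

noncomputable section

variable {S : Sp} {M : ℕ}

/-- MEMBERS: linear total exponent `w0 c` up to `ε` (rigid, stable, all prefixes), deficient at all levels, literal
type-labels `W b`; on all events the finer literal type-labels of the windows `b' ≥ b` carry at most the information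
`q w0 (b' - b) + ε` more about the point -/
structure FA' (C : MCl (M + 1)) (v g r e0 : ℕ) (q w0 ε : ℝ) (S : Sp) (s : MSys S (M + 1) (lin g) (Fin r)) : Prop where
  bk : Pool.Agent.Helper94.SEL.BK C v g r e0 ((1 - ε) / w0) S s (rbot S)
  tot : ∀ c : ℝ, 0 ≤ c → w0 * c < 1 - ε → |Pool.Agent.Helper94.SEL.tot s (rbot S) c - w0 * c| ≤ ε
  dfc : ∀ (T : Sp) (p : Pj T S) (A : ∀ k, (T.F k).Ω → Prop) (hA : 0 < ul (T.pr A)) (b : ℝ), 0 ≤ b → b ≤ 1 →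
    H ((s.im p A hA).Q.dg b) ≤ (M + q) * b + ε
  inf : ∃ W : ℚ → Rsl S, ∀ b : ℚ, (0 : ℝ) < b → w0 * b < 1 - ε → KLb s (rbot S) b (Lab.ofZ (W b)) ∧
    ∀ b' : ℝ, b ≤ b' → w0 * b' < 1 - ε → ∀ (T : Sp) (p : Pj T S) (A : ∀ k, (T.F k).Ω → Prop) (hA : 0 < ul (T.pr A))
      (V : Rsl (Sp.im p A)), (∀ k, V k ≤ W b k) → TLb (s.im p A hA) b' (Lab.ofZ V) →
        H (up1 (Lab.ofZ (S := Sp.im p A) (W b)) ((s.im p A hA).Q.dg 1)) - H (up1 (Lab.ofZ V) ((s.im p A hA).Q.dg 1)) ≤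
          q * w0 * (b' - b) + ε

/-- [A'] (helper17) positive speed: zooms at `c` with small units are linear up to a small error -/
def ROW_A' (M : ℕ) : Prop := ∀ (A : MCl (M + 1)) (C : ℕ → MCl (M + 1)), 1 ≤ M → Okc (M + 1) A C →
  (∀ m, m < M + 1 → STu m) → ∀ (m v g r : ℕ) (i j : Fin r) (L : Set ℝ) (u h : ℝ → ℝ → ℝ) (V : ℝ → ℝ → ℕ → ℝ)
  (P : (KM (M + 1) (Fin r)).Pd), 1 ≤ g → FC C m v g r i j L u h V P → ∀ c a p q : ℝ, Loc L u h c a p q → 0 < p →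
    ∃ κ e0 : ℕ, 1 ≤ κ ∧ 1 ≤ p⁻¹ ∧ ∀ ε : ℝ, 0 < ε → ∃ S s, FA' (C m) v κ r e0 q p⁻¹ ε S s

/-- [LIMG] (helper62) members with small errors ==> the output of FIRST -/
def ROW_LIMG (M : ℕ) : Prop := ∀ (A : MCl (M + 1)) (C : ℕ → MCl (M + 1)), 1 ≤ M → Okc (M + 1) A C →
  (∀ m, m < M + 1 → STu m) → ∀ v : ℕ, STO (M + 1) (Cv A (v + 1)) → ∀ (m g r e0 : ℕ) (q w0 : ℝ),
    1 ≤ g → 0 < r → 0 ≤ q → q < 1 → 1 ≤ w0 → (∀ ε : ℝ, 0 < ε → ∃ S s, FA' (C m) v g r e0 q w0 ε S s) →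
      ∃ TT : (∀ S : Sp, MSys S (M + 1) (lin g) (Fin r) → Rsl S → Prop),
        Pool.Agent.Helper94.SEL.FC (C m) v g r e0 (1 - q) w0 TT

/-! ### zooms of members -/

/-- the unit of the zooms at the window `c` -/
def zun (w0 c : ℝ) : ℝ := (1 - w0 * c) / 2

/-- ZOOM of a member at the window `c` with unit `u`, over a literal label finer than `W₀`, in tame optimal flag rows,
with its numbers on the windows `b < b1` -/
structure ZmB (C : MCl (M + 1)) (v e0 : ℕ) {g r : ℕ} (c u b1 : ℝ) (κ D1 : ℕ) (s : MSys S (M + 1) (lin g) (Fin r))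
    (W₀ : Rsl S) (z : RW s (M + 1)) (W : Rsl S) : Prop where
  zl : z.Z.l = Lab.ofZ W
  le : ∀ᶠ k in UF, W k ≤ W₀ k
  zc : z.Z.c = c
  zu : z.Z.u = u
  zκ : z.κ = κ
  zD : z.D ≤ D1
  klb : KLb s (rbot S) z.Z.c z.Z.l
  flg : Flg z (Pool.Agent.Helper94.SEL.lmd s (rbot S) c)
  opt : OptLam z (rbot S) (Pool.Agent.Helper94.SEL.lmd s (rbot S) c)
  tam : Tam z (1 - u)
  bk : Pool.Agent.Helper94.SEL.BK C v z.κ r e0 b1 z.Z.sp z.sys (rover z.Z.l z.Z.u z.Z.hu (rbot S))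
  num : ∀ b : ℝ, 0 ≤ b → b < b1 → ∀ (j : ℕ) (hj : j ≤ M + 1),
    Pool.Agent.Helper94.SEL.num z.sys (rover z.Z.l z.Z.u z.Z.hu (rbot S)) hj b =
      (Pool.Agent.Helper94.SEL.num s (rbot S) hj (c + u * b) - Pool.Agent.Helper94.SEL.num s (rbot S) hj c) / u

/-- [Z1] (helper37) zooms of rigid stable systems with linear total exponent, up to `ε < u / 4`, over literal labels
finer than a given one; `κ`, `D1` do not depend on the system and on `ε` -/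
def ROW_Z1 (M : ℕ) : Prop := ∀ (A : MCl (M + 1)) (C : ℕ → MCl (M + 1)), 1 ≤ M → Okc (M + 1) A C →
  (∀ m, m < M + 1 → STu m) → ∀ v : ℕ, STO (M + 1) (Cv A (v + 1)) → ∀ (m g r e0 : ℕ) (w0 c : ℝ),
    1 ≤ g → 0 < r → 1 ≤ w0 → 0 < c → w0 * c < 1 → ∃ κ D1 : ℕ, 1 ≤ κ ∧ g ≤ κ ∧ ∀ ε : ℝ, 0 ≤ ε → 4 * ε < zun w0 c →
      ∀ (S : Sp) (s : MSys S (M + 1) (lin g) (Fin r)),
        Pool.Agent.Helper94.SEL.BK (C m) v g r e0 ((1 - ε) / w0) S s (rbot S) →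
        (∀ c : ℝ, 0 ≤ c → w0 * c < 1 - ε → |Pool.Agent.Helper94.SEL.tot s (rbot S) c - w0 * c| ≤ ε) →
        ∀ W₀ : Rsl S, KLb s (rbot S) c (Lab.ofZ W₀) → ∃ (z : RW s (M + 1)) (W : Rsl S),
          ZmB (C m) v e0 c (zun w0 c) ((1 - 2 * ε / zun w0 c) / w0) κ D1 s W₀ z W

/-- [Z2] (helper77) zooms of members over finer labels than the label of `inf` are deficient on all events -/
def ROW_Z2 (M : ℕ) : Prop := ∀ (A : MCl (M + 1)) (C : ℕ → MCl (M + 1)), 1 ≤ M → Okc (M + 1) A C →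
  (∀ m, m < M + 1 → STu m) → ∀ v : ℕ, STO (M + 1) (Cv A (v + 1)) → ∀ (m g r e0 : ℕ) (q w0 c : ℝ),
    1 ≤ g → 0 < r → 0 ≤ q → q < 1 → 1 ≤ w0 → 0 < c → w0 * c < 1 → ∃ K : ℝ, 0 < K ∧ ∀ (κ D1 : ℕ) (ε : ℝ), 1 ≤ κ →
      0 ≤ ε → 4 * ε < zun w0 c → ∀ (S : Sp) (s : MSys S (M + 1) (lin g) (Fin r)),
        Pool.Agent.Helper94.SEL.BK (C m) v g r e0 ((1 - ε) / w0) S s (rbot S) →
        (∀ c : ℝ, 0 ≤ c → w0 * c < 1 - ε → |Pool.Agent.Helper94.SEL.tot s (rbot S) c - w0 * c| ≤ ε) →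
        ∀ W₀ : Rsl S, (∀ b' : ℝ, c ≤ b' → w0 * b' < 1 - ε → ∀ (T : Sp) (p : Pj T S) (A : ∀ k, (T.F k).Ω → Prop)
            (hA : 0 < ul (T.pr A)) (V : Rsl (Sp.im p A)), (∀ k, V k ≤ W₀ k) → TLb (s.im p A hA) b' (Lab.ofZ V) →
              H (up1 (Lab.ofZ (S := Sp.im p A) W₀) ((s.im p A hA).Q.dg 1)) -
                H (up1 (Lab.ofZ V) ((s.im p A hA).Q.dg 1)) ≤ q * w0 * (b' - c) + ε) →
          ∀ (z : RW s (M + 1)) (W : Rsl S), ZmB (C m) v e0 c (zun w0 c) ((1 - 2 * ε / zun w0 c) / w0) κ D1 s W₀ z W →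
            AllE (fun _ (t : MSys _ (M + 1) (lin z.κ) (Fin r)) _ => ∀ b : ℝ, 0 ≤ b → b ≤ 1 →
              H (t.Q.dg b) ≤ (M + q) * b + K * ε) z.Z.sp z.sys (rover z.Z.l z.Z.u z.Z.hu (rbot S))

end

end Pool.Agent.Helper62.FST
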