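import Pool.Agent.Helper62.FST.Zl

/-! LIMG: the class `FL` of systems with limits of zooms; the rows ZD (one window), FLI (events), FAF (members). -/

set_option autoImplicit false

namespace Pool.Agent.Helper62.FST

open Finset Filter Topology Matrix Pool.Agent.Helper69.RK Pool.Agent.Helper31.EC Pool.Agent.Helper31.EC.Sp
open Pool.Agent.Helper40.EL Pool.Agent.Helper89.LX Pool.Agent.Helper84.MT
open Pool.Agent.Helper49.MD Pool.Agent.Helper36.AM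
open Pool.Agent.Helper47.FN (KR lftR obR)
open Pool.Agent.Helper49.KL (ZS)
open Pool.Agent.Helper81.CPY (chP)
open Pool.Agent.Helper29.MX
open Pool.Agent.Helper94.SEL (tot)

noncomputable section

variable {S : Sp} {M : ℕ}

/-- the total exponents of the windows `c + u b`, `b < l`, on all events -/
def TB (c u φ l La e : ℝ) {N g r : ℕ} (S : Sp) (s : MSys S N (lin g) (Fin r)) : Prop :=
  AllE (fun _ s R => ∀ b : ℝ, 0 ≤ b → b < l → tot s R (c + u * b) ≤ φ + u * La * b + e) S s (rbot S)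

/-- A LIMIT OF ZOOMS of `s` over the literal label `W` of the window `c` with unit `u`: the system `t`, rows `p`, exponents
`lam` with sum `φ`, the windows of `t` are known to the windows of `s`, `t` is deficient on all events; errors `ε` -/
structure ZL (C : MCl (M + 1)) (v : ℕ) (q c u φ : ℝ) (κ D1 : ℕ) (Λ ε : ℝ) {g r : ℕ}
    (s : MSys S (M + 1) (lin g) (Fin r)) (W : Rsl S) (hu : 0 < u) (t : MSys (S.chg W u hu) (M + 1) (lin κ) (Fin r))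
    (p : ∀ k, (S.F k).Ω → Fin (M + 1) → MvPolynomial (Fin (M + 1)) ℝ) (lam : Fin (M + 1) → ℝ) : Prop where
  zs : ZS s (rbot S) W c u hu t p D1 Λ lam
  lb : ∀ j, |lam j| ≤ M + 2
  sum : |∑ j, lam j - φ| ≤ ε
  cl : C (S.chg W u hu) κ r t
  inv : Inv v t
  win : ∀ b : ℚ, (0 : ℝ) ≤ b → c + u * b ≤ 1 → ∀ i,
    PLe ((t.lf i).win b) (chP W u hu ((s.lf i).win (c + u * b)))
  dfc : AllE (fun _ (t : MSys _ (M + 1) (lin κ) (Fin r)) _ => ∀ b : ℝ, 0 ≤ b → b ≤ 1 →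
    H (t.Q.dg b) ≤ (M + q) * b + ε) (S.chg W u hu) t (rbot (S.chg W u hu))

/-- `s` has a limit of zooms, up to `ε` -/
def HZ (C : MCl (M + 1)) (v : ℕ) (q c u φ : ℝ) (κ D1 : ℕ) (Λ ε : ℝ) {g r : ℕ} (S : Sp)
    (s : MSys S (M + 1) (lin g) (Fin r)) : Prop :=
  ∃ (W : Rsl S) (hu : 0 < u) (t : MSys (S.chg W u hu) (M + 1) (lin κ) (Fin r))
    (p : ∀ k, (S.F k).Ω → Fin (M + 1) → MvPolynomial (Fin (M + 1)) ℝ) (lam : Fin (M + 1) → ℝ),
    ZL C v q c u φ κ D1 Λ ε s W hu t p lam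

/-- `s` has a stable limit of zooms, error `0` -/
def HZ0 (C : MCl (M + 1)) (v : ℕ) (q c u φ : ℝ) (κ D1 : ℕ) (Λ : ℝ) {g r : ℕ} (S : Sp)
    (s : MSys S (M + 1) (lin g) (Fin r)) : Prop :=
  ∃ (W : Rsl S) (hu : 0 < u) (t : MSys (S.chg W u hu) (M + 1) (lin κ) (Fin r))
    (p : ∀ k, (S.F k).Ω → Fin (M + 1) → MvPolynomial (Fin (M + 1)) ℝ) (lam : Fin (M + 1) → ℝ),
    ZL C v q c u φ κ D1 Λ 0 s W hu t p lam ∧ Stb (S := S.chg W u hu) 0 t (rbot (S.chg W u hu))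

/-- [ZD] (helper49) ONE WINDOW: limits of zooms pass to slow diagonals and are stable; only the members with index
`j ≥ j0` have limits of zooms -/
def ROW_ZD (M : ℕ) : Prop := ∀ (A : MCl (M + 1)) (C : ℕ → MCl (M + 1)) (v : ℕ),
  Pool.Agent.Helper94.SEL.Ctx M A C v → ∀ (m g r κ D1 j0 : ℕ) (q c u φ l La Λ : ℝ) (ε : ℕ → ℝ), g ≤ κ → 0 ≤ q →
    q < 1 → 0 < c → 0 < u → c + u ≤ 1 → 0 < l → l ≤ 1 → 0 ≤ La → (∀ j, 0 ≤ ε j) → Tendsto ε atTop (𝓝 0) →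
      DiagTo (fun j => lftR fun S (s : MSys S (M + 1) (lin g) (Fin r)) R => R = rbot S ∧ C m S g r s ∧ Inv v s ∧
          (j0 ≤ j → TB c u φ l La (ε j) S s ∧ HZ (C m) v q c u φ κ D1 Λ (ε j) S s))
        (fun S x => ∀ s : MSys S (M + 1) (lin g) (Fin r),
          Giv s (fun k => (x k : FMs (S.F k).Ω (M + 1) (Fin r) × Setoid (S.F k).Ω).1) →
            HZ0 (C m) v q c u φ κ D1 Λ S s)

/-- THE CLASS `FL`: linear total exponent `w0 c` up to `ε` on all events, deficient at all levels on all events, limits of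
zooms at all rational windows (if `ε` is small) -/
structure FL (C : MCl (M + 1)) (v g r e0 : ℕ) (q w0 : ℝ) (κ D1 : ℚ → ℕ) (δ K : ℚ → ℝ) (ε : ℝ) (S : Sp)
    (s : MSys S (M + 1) (lin g) (Fin r)) : Prop where
  cl : CvK C v S g r s (rbot S)
  dim : ∀ i, (s.lf i).e ≤ e0
  pol : Pool.Agent.Helper26.OUT.WDs (fun _ => (g : ℝ)) s
  tot : AllE (fun _ s R => ∀ c : ℝ, 0 ≤ c → w0 * c < 1 - ε → |Pool.Agent.Helper94.SEL.tot s R c - w0 * c| ≤ ε) S s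
    (rbot S)
  dfc : AllE (fun _ (s : MSys _ (M + 1) (lin g) (Fin r)) _ => ∀ b : ℝ, 0 ≤ b → b ≤ 1 → H (s.Q.dg b) ≤ (M + q) * b + ε)
    S s (rbot S)
  zm : ∀ c : ℚ, (0 : ℝ) < c → w0 * c < 1 → ε < δ c →
    HZ C v q c (zun w0 c) (w0 * c) (κ c) (D1 c) (c * (κ c + 1) - zun w0 c) (K c * ε) S s

/-- [FLI] (helper77) the class `FL` on events of extensions -/
def ROW_FLI (M : ℕ) : Prop := ∀ (A : MCl (M + 1)) (C : ℕ → MCl (M + 1)), Okc (M + 1) A C → ∀ (m v g r e0 : ℕ)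
  (q w0 : ℝ) (κ D1 : ℚ → ℕ) (δ K : ℚ → ℝ) (ε : ℝ) (S : Sp) (s : MSys S (M + 1) (lin g) (Fin r)),
    FL (C m) v g r e0 q w0 κ D1 δ K ε S s → ∀ (T : Sp) (p : Pj T S) (A : ∀ k, (T.F k).Ω → Prop)
      (hA : 0 < ul (T.pr A)), FL (C m) v g r e0 q w0 κ D1 δ K ε (Sp.im p A) (s.im p A hA)

/-- [FAF] (helper37) members with small errors are in the class `FL` (Z1, Z2, `zs_of_rw` with the windows) -/
def ROW_FAF (M : ℕ) : Prop := ∀ (A : MCl (M + 1)) (C : ℕ → MCl (M + 1)), 1 ≤ M → Okc (M + 1) A C →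
  (∀ m, m < M + 1 → STu m) → ∀ v : ℕ, STO (M + 1) (Cv A (v + 1)) → ∀ (m g r e0 : ℕ) (q w0 : ℝ),
    1 ≤ g → 0 < r → 0 ≤ q → q < 1 → 1 ≤ w0 → ∃ (κ D1 : ℚ → ℕ) (K : ℚ → ℝ), (∀ c, g ≤ κ c) ∧ (∀ c, 0 ≤ K c) ∧
      ∀ ε : ℝ, 0 ≤ ε → ∀ (S : Sp) (s : MSys S (M + 1) (lin g) (Fin r)), FA' (C m) v g r e0 q w0 ε S s →
        FL (C m) v g r e0 q w0 κ D1 (fun c => zun w0 c / 4) K ε S s

end

end Pool.Agent.Helper62.FST
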