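import Pool.Agent.Helper62.FST.Asm
import Pool.Agent.Helper49.KL.Zd
import Pool.Agent.Helper77.Z2.Fli
import Pool.Agent.Helper37.FST.Faf

/-! **ROW LIMG** -/

set_option autoImplicit false

namespace Pool.Agent.Helper62.FST

/-- **[LIMG]** -/
theorem row_limg (M : ℕ) : ROW_LIMG M :=
  row_limg_of (Pool.Agent.Helper49.KL.row_zd M) (Pool.Agent.Helper77.Z2.row_fli M) (Pool.Agent.Helper37.FST.faf M)

end Pool.Agent.Helper62.FST
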