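import Pool.Agent.Helper62.FST.Cl

/-! **LIMG** from ZD (one window), FLI (events), FAF (members). -/

set_option autoImplicit false

namespace Pool.Agent.Helper62.FST

open Finset Filter Topology Matrix Pool.Agent.Helper69.RK Pool.Agent.Helper31.EC Pool.Agent.Helper31.EC.Sp
open Pool.Agent.Helper40.EL Pool.Agent.Helper89.LX Pool.Agent.Helper84.MT
open Pool.Agent.Helper49.MD Pool.Agent.Helper36.AM
open Pool.Agent.Helper47.FN (KR lftR obR lftR_ob)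
open Pool.Agent.Helper29.MX
open Pool.Agent.Helper94.SEL (tot Ctx)

noncomputable section

variable {M : ℕ}

/-- **[LIMG]** -/
theorem row_limg_of (hZD : ROW_ZD M) (hI : ROW_FLI M) (hF : ROW_FAF M) : ROW_LIMG M := by
  intro A C h1 hC hst v hsto m g r e0 q w0 hg hr hq hq1 hw hmem
  obtain ⟨κ, D1, K, hκ, hK, hFL⟩ := hF A C h1 hC hst v hsto m g r e0 q w0 hg hr hq hq1 hw
  have hctx : Ctx M A C v := ⟨h1, hC, hst, hsto⟩
  have hw0 : 0 < w0 := by linarith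
  have hδ : ∀ c : ℚ, (0 : ℝ) < c → w0 * c < 1 → 0 < (fun c : ℚ => zun w0 c / 4) c ∧
      (fun c : ℚ => zun w0 c / 4) c ≤ zun w0 c := by
    intro c _ hc
    have hu : 0 < zun w0 c := by
      unfold zun
      linarith
    show 0 < zun w0 c / 4 ∧ zun w0 c / 4 ≤ zun w0 c
    exact ⟨by linarith, by linarith⟩
  refine ⟨fun S s R => R = rbot S ∧ FL (C m) v g r e0 q w0 κ D1 (fun c => zun w0 c / 4) K 0 S s, ?_⟩
  refine ⟨by linarith, hw, ⟨?_, ?_⟩, ?_, ?_, ?_, ?_⟩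
  · rintro S s R ⟨rfl, hs⟩ T p A' hA'
    exact ⟨rfl, hI A C hC m v g r e0 q w0 κ D1 _ K 0 S s hs T p A' hA'⟩
  · exact fl_dg (ε := fun _ => (0 : ℝ)) hZD hctx hq hq1 hw hκ hK hδ (fun _ => le_rfl) tendsto_const_nhds
  · have hε : ∀ k : ℕ, (0 : ℝ) < 1 / ((k : ℝ) + 1) := fun k => by positivity
    choose S s hs using fun k : ℕ => hmem (1 / ((k : ℝ) + 1)) (hε k)
    obtain ⟨E, hE, hJ⟩ := fl_dg (r := r) (g := g) (e0 := e0) (ε := fun k : ℕ => 1 / ((k : ℝ) + 1)) hZD hctx hq hq1 hw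
      hκ hK hδ (fun k => (hε k).le) tendsto_one_div_add_atTop_nhds_zero_nat S
      (fun k => obR (s k) (rbot (S k))) (fun k => lftR_ob ⟨rfl, hFL _ (hε k).le _ _ (hs k)⟩)
    obtain ⟨J, hJ1⟩ := exists_slo S E hE
    obtain ⟨s', R', -, -, hR, hs'⟩ := hJ J hJ1
    exact ⟨_, s', R', hR, hs'⟩
  · rintro S s R ⟨rfl, hs⟩
    exact ⟨hs.cl, hs.dim, hs.pol⟩
  · rintro S s R ⟨rfl, hs⟩ c hc hc1
    have h2 := Pool.Agent.Helper52.MW.AllE_self hs.tot c hc (by linarith)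
    have h3 := abs_nonpos_iff.1 h2
    linarith
  · rintro S s R ⟨rfl, hs⟩ b hb hb1
    have h3 := Pool.Agent.Helper52.MW.AllE_self hs.dfc b hb hb1
    have h4 : ((M : ℝ) + 1 - (1 - q)) * b = (M + q) * b + 0 := by ring
    rw [h4]
    exact h3

end

end Pool.Agent.Helper62.FST
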