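import Pool.Agent.Helper62.FST.Fl
import Pool.Agent.Helper60.LIM.Stbl
import Pool.Agent.Helper43.NSLB.Main
import Pool.Agent.Helper84.SEL.Numx
import Pool.Agent.Helper70.CPW.Ger
import Pool.Agent.Helper37.FST.Zc

/-! LIMG: the class `FL` under slow diagonals, from one window (ZD). -/

set_option autoImplicit false

namespace Pool.Agent.Helper62.FST

open Finset Filter Topology Matrix Pool.Agent.Helper69.RK Pool.Agent.Helper31.EC Pool.Agent.Helper31.EC.Sp
open Pool.Agent.Helper40.EL Pool.Agent.Helper89.LX Pool.Agent.Helper84.MT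
open Pool.Agent.Helper49.MD Pool.Agent.Helper36.AM
open Pool.Agent.Helper47.FN (KR lftR obR lftR_ob)
open Pool.Agent.Helper29.MX
open Pool.Agent.Helper26.OUT (WDs)
open Pool.Agent.Helper63.SCN (ptR PtK evA_of)
open Pool.Agent.Helper60.LIM (dfA dfA_of dfA_to dmA dmA_of dmA_to wdR wdR_of wdR_to)
open Pool.Agent.Helper94.SEL (tot Ctx)

noncomputable section

variable {S T : Sp} {M g r v : ℕ}

/-! ### real analysis -/

theorem lin_of_rat {f : ℝ → ℝ} {w0 : ℝ} (hw : 1 ≤ w0) (hm : ∀ c c', c ≤ c' → f c ≤ f c') (h0 : f 0 = 0)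
    (h : ∀ q : ℚ, (0 : ℝ) < q → w0 * q < 1 → f q = w0 * q) {c : ℝ} (hc : 0 ≤ c) (hc1 : w0 * c < 1) :
    f c = w0 * c := by
  have hw0 : 0 < w0 := by linarith
  rcases hc.eq_or_lt with rfl | hc0
  · rw [h0, mul_zero]
  have hcl : c < 1 / w0 := by
    rw [lt_div_iff₀ hw0]
    linarith
  apply le_antisymm
  · apply le_of_forall_pos_le_add
    intro δ hδ
    obtain ⟨q, h1, h2⟩ := exists_rat_btwn (lt_min hcl (lt_add_of_pos_right c (div_pos hδ hw0)))
    have h3 := h2.trans_le (min_le_left _ _)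
    have h4 := h2.trans_le (min_le_right _ _)
    have h5 : w0 * q < 1 := by
      rw [lt_div_iff₀ hw0] at h3
      linarith
    have h6 := hm c q h1.le
    rw [h q (hc0.trans h1) h5] at h6
    have h7 : w0 * (q : ℝ) ≤ w0 * (c + δ / w0) := mul_le_mul_of_nonneg_left h4.le hw0.le
    have h8 : w0 * (c + δ / w0) = w0 * c + δ := by field_simp
    linarith
  · apply le_of_forall_pos_le_add
    intro δ hδ
    obtain ⟨q, h1, h2⟩ := exists_rat_btwn (max_lt hc0 (sub_lt_self c (div_pos hδ hw0)))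
    have h3 := (le_max_left _ _).trans_lt h1
    have h4 := (le_max_right _ _).trans_lt h1
    have h5 : w0 * q < 1 := (mul_lt_mul_of_pos_left h2 hw0).trans hc1
    have h6 := hm q c h2.le
    rw [h q h3 h5] at h6
    have h7 : w0 * (c - δ / w0) ≤ w0 * (q : ℝ) := mul_le_mul_of_nonneg_left h4.le hw0.le
    have h8 : w0 * (c - δ / w0) = w0 * c - δ := by field_simp
    linarith

theorem dfc_of_rat {N : ℕ} (Q : S.VV N) {C : ℝ} (hC : 0 ≤ C)
    (h : ∀ q : ℚ, (0 : ℝ) ≤ q → (q : ℝ) ≤ 1 → H (Q.dg q) ≤ C * q) {b : ℝ} (hb : 0 ≤ b) (hb1 : b ≤ 1) :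
    H (Q.dg b) ≤ C * b := by
  rcases hb1.eq_or_lt with rfl | h1
  · have h2 := h 1 (by norm_num) (by norm_num)
    rwa [Rat.cast_one] at h2
  · apply le_of_forall_pos_le_add
    intro δ hδ
    obtain ⟨q, h2, h3⟩ := exists_rat_btwn (lt_min h1 (lt_add_of_pos_right b (div_pos hδ (by linarith : 0 < C + 1))))
    have h4 := h3.trans_le (min_le_left _ _)
    have h5 := h3.trans_le (min_le_right _ _)
    have h6 : H (Q.dg b) ≤ H (Q.dg q) := H_mono (Q.dg_mono h2.le)
    have h7 := h q (hb.trans h2.le) h4.le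
    have h8 : C * (q : ℝ) ≤ C * (b + δ / (C + 1)) := mul_le_mul_of_nonneg_left h5.le hC
    have h9 : C * (δ / (C + 1)) ≤ δ := by
      rw [mul_div_assoc', div_le_iff₀ (by linarith)]
      nlinarith
    rw [mul_add] at h8
    linarith

/-! ### small facts -/

theorem AllE_mono {N : ℕ} {E : ℕ → ℕ} {ι : Type} {P P' : ∀ S : Sp, MSys S N E ι → Rsl S → Prop}
    (h : ∀ S s R, P S s R → P' S s R) {s : MSys S N E ι} {R : Rsl S} (hP : AllE P S s R) : AllE P' S s R :=
  fun T p A hA => h _ _ _ (hP T p A hA)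

theorem TB.mono {c u φ l La e e' : ℝ} {N : ℕ} {s : MSys S N (lin g) (Fin r)} (he : e ≤ e')
    (h : TB c u φ l La e S s) : TB c u φ l La e' S s := fun T p A hA b h0 h1 => (h T p A hA b h0 h1).trans (by linarith)

theorem HZ.mono {C : MCl (M + 1)} {q c u φ : ℝ} {κ D1 : ℕ} {Λ ε ε' : ℝ} {s : MSys S (M + 1) (lin g) (Fin r)}
    (he : ε ≤ ε') (h : HZ C v q c u φ κ D1 Λ ε S s) : HZ C v q c u φ κ D1 Λ ε' S s := by
  obtain ⟨W, hu, t, p, lam, h⟩ := h
  exact ⟨W, hu, t, p, lam, h.zs, h.lb, h.sum.trans he, h.cl, h.inv, h.win,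
    fun T p A hA b h0 h1 => (h.dfc T p A hA b h0 h1).trans (by linarith)⟩

/-- the resolution is trivial -/
def botA (M : ℕ) (ι : Type) : AP (KR M ι) where
  P := fun F x _ => (x : FMs F.Ω M ι × Setoid F.Ω).2 = ⊥
  mono := fun _ _ _ _ _ h => h

/-- the total exponents of the windows of the zooms of a member of `FL` -/
theorem FL.tb {C : MCl (M + 1)} {e0 : ℕ} {q w0 : ℝ} {κ D1 : ℚ → ℕ} {δ K : ℚ → ℝ} {ε : ℝ}
    {s : MSys S (M + 1) (lin g) (Fin r)} (hw : 1 ≤ w0) (h : FL C v g r e0 q w0 κ D1 δ K ε S s) {c : ℝ} (hc : 0 < c)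
    (hc1 : w0 * c < 1) (hε : ε ≤ zun w0 c) : TB c (zun w0 c) (w0 * c) (1 / w0) w0 ε S s := by
  have hw0 : 0 < w0 := by linarith
  have hu : 0 < zun w0 c := by
    unfold zun
    linarith
  intro T p A hA b h0 h1
  have h2 : w0 * b < 1 := by
    rw [lt_div_iff₀ hw0] at h1
    linarith
  have h3 : zun w0 c * (w0 * b) < zun w0 c * 1 := mul_lt_mul_of_pos_left h2 hu
  have h4 : w0 * (c + zun w0 c * b) < 1 - ε := by
    have e1 : w0 * (c + zun w0 c * b) = w0 * c + zun w0 c * (w0 * b) := by ring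
    have e2 : w0 * c = 1 - 2 * zun w0 c := by
      unfold zun
      ring
    rw [e1, e2]
    linarith
  have h5 := h.tot T p A hA (c + zun w0 c * b) (by positivity) h4
  have h6 := (abs_le.1 h5).2
  have e3 : w0 * c + zun w0 c * w0 * b = w0 * (c + zun w0 c * b) := by ring
  rw [e3]
  linarith

/-- **THE CLASS `FL` UNDER SLOW DIAGONALS** -/
theorem fl_dg (hZD : ROW_ZD M) {A : MCl (M + 1)} {C : ℕ → MCl (M + 1)} (hc : Ctx M A C v) {m e0 : ℕ} {q w0 : ℝ}
    (hq : 0 ≤ q) (hq1 : q < 1) (hw : 1 ≤ w0) {κ D1 : ℚ → ℕ} {δ K : ℚ → ℝ} (hκ : ∀ c, g ≤ κ c) (hK : ∀ c, 0 ≤ K c)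
    (hδ : ∀ c : ℚ, (0 : ℝ) < c → w0 * c < 1 → 0 < δ c ∧ δ c ≤ zun w0 c) {ε : ℕ → ℝ} (h0 : ∀ j, 0 ≤ ε j)
    (hε : Tendsto ε atTop (𝓝 0)) :
    DiagTo (fun j => lftR fun S (s : MSys S (M + 1) (lin g) (Fin r)) R => R = rbot S ∧
        FL (C m) v g r e0 q w0 κ D1 δ K (ε j) S s)
      (lftR fun S (s : MSys S (M + 1) (lin g) (Fin r)) R => R = rbot S ∧
        FL (C m) v g r e0 q w0 κ D1 δ K 0 S s) := by
  classical
  have hw0 : 0 < w0 := by linarith
  have hwj : ∀ j : Fin (M + 1), (0 : ℝ) ≤ (fun _ : Fin (M + 1) => (g : ℝ)) j := fun _ => Nat.cast_nonneg g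
  have hMq : (0 : ℝ) ≤ M + q := add_nonneg (Nat.cast_nonneg M) hq
  set π := ptR (M + 1) (Fin r) with hπ
  set rr : ℕ → ℚ := fun i => (Encodable.decode (α := ℚ) i).getD 0 with hrr
  have hen : ∀ b : ℚ, rr (Encodable.encode b) = b := fun b => by
    rw [hrr]
    simp only [Encodable.encodek, Option.getD_some]
  -- stability
  set l0 : ℝ := 1 / (2 * w0) with hl0
  have hl0p : 0 < l0 := by positivity
  set ε' : ℕ → ℝ := fun j => if 2 * ε j < 1 then ε j else (M + 1 : ℕ) with hε'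
  have hε'0 : ∀ j, 0 ≤ ε' j := fun j => by
    rw [hε']
    show 0 ≤ if 2 * ε j < 1 then ε j else ((M + 1 : ℕ) : ℝ)
    split_ifs
    · exact h0 j
    · exact Nat.cast_nonneg _
  have hε't : Tendsto ε' atTop (𝓝 0) := by
    refine hε.congr' ?_
    filter_upwards [hε.eventually (gt_mem_nhds (by norm_num : (0 : ℝ) < 1 / 2))] with j hj
    rw [hε']
    show ε j = if 2 * ε j < 1 then ε j else ((M + 1 : ℕ) : ℝ)
    rw [if_pos (by linarith)]
  have d1 := Pool.Agent.Helper43.NSLB.nslb (M + 1) A (C m) hc.ok.oA (hc.ok.ocl m) hc.st v hc.sto g r l0 w0 hl0p ε'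
    hε'0 hε't
  -- deficits
  have d3 : ∀ i : ℕ, DiagTo (fun j (S : Sp) (x : (KR (M + 1) (Fin r)).Ob S) => (0 : ℝ) ≤ rr i → (rr i : ℝ) ≤ 1 →
      (dfA π (rr i) ((M + q) * (rr i : ℝ))).pd (ε j) S x)
      (fun (S : Sp) (x : (KR (M + 1) (Fin r)).Ob S) => (0 : ℝ) ≤ rr i → (rr i : ℝ) ≤ 1 →
      (dfA π (rr i) ((M + q) * (rr i : ℝ))).pd 0 S x) := by
    intro i
    by_cases hi : (0 : ℝ) ≤ rr i ∧ (rr i : ℝ) ≤ 1
    · exact ((dfA π (rr i) ((M + q) * (rr i : ℝ))).diagTo hε).mono (fun j S x hx => hx hi.1 hi.2) fun S x hx _ _ => hx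
    · intro S x _
      exact ⟨fun _ _ _ => True, fun _ _ => Eventually.of_forall fun _ => trivial, fun J hd a b => absurd ⟨a, b⟩ hi⟩
  have d4 := (dmA (M + 1) (Fin r) e0).diagTo (ε := fun _ => (0 : ℝ)) (tendsto_const_nhds (x := (0 : ℝ)))
  have d5 := (wdR (fun _ : Fin (M + 1) => (g : ℝ)) (Fin r)).diagTo (ε := fun _ => (0 : ℝ))
    (tendsto_const_nhds (x := (0 : ℝ)))
  have d6 := (botA (M + 1) (Fin r)).diagTo (ε := fun _ => (0 : ℝ)) (tendsto_const_nhds (x := (0 : ℝ)))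
  -- zooms
  have d7 : ∀ i : ℕ, DiagTo (fun j => lftR fun S (s : MSys S (M + 1) (lin g) (Fin r)) R => R = rbot S ∧
        FL (C m) v g r e0 q w0 κ D1 δ K (ε j) S s)
      (fun (S : Sp) (x : (KR (M + 1) (Fin r)).Ob S) => (0 : ℝ) < rr i → w0 * (rr i : ℝ) < 1 →
        ∀ s : MSys S (M + 1) (lin g) (Fin r), Giv s (fun k => (x k : FMs (S.F k).Ω (M + 1) (Fin r) × Setoid (S.F k).Ω).1) →
          HZ0 (C m) v q (rr i) (zun w0 (rr i)) (w0 * rr i) (κ (rr i)) (D1 (rr i))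
            (rr i * (κ (rr i) + 1) - zun w0 (rr i)) S s) := by
    intro i
    by_cases hi : (0 : ℝ) < rr i ∧ w0 * (rr i : ℝ) < 1
    · obtain ⟨hi0, hi1⟩ := hi
      obtain ⟨hδ0, hδ1⟩ := hδ (rr i) hi0 hi1
      obtain ⟨j0, hj0⟩ : ∃ j0 : ℕ, ∀ j, j0 ≤ j → ε j < δ (rr i) :=
        eventually_atTop.1 (hε.eventually (gt_mem_nhds hδ0))
      have hu : 0 < zun w0 (rr i) := by
        unfold zun
        linarith
      have hcu : (rr i : ℝ) + zun w0 (rr i) ≤ 1 := by
        have h1 : (rr i : ℝ) ≤ w0 * rr i := le_mul_of_one_le_left hi0.le hw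
        unfold zun
        linarith
      have hl1 : 1 / w0 ≤ 1 := by
        rw [div_le_one hw0]
        exact hw
      have hKi := hK (rr i)
      have h3 := hZD A C v hc m g r (κ (rr i)) (D1 (rr i)) j0 q (rr i) (zun w0 (rr i)) (w0 * rr i) (1 / w0) w0
        (rr i * (κ (rr i) + 1) - zun w0 (rr i)) (fun j => (1 + K (rr i)) * ε j) (hκ _) hq hq1 hi0 hu hcu
        (by positivity) hl1 hw0.le (fun j => mul_nonneg (by linarith) (h0 j)) (by
          have := hε.const_mul (1 + K (rr i))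
          rwa [mul_zero] at this)
      refine h3.mono ?_ fun S x hx _ _ s hs => hx s hs
      rintro j S x ⟨s, R, hG, hR, rfl, hF⟩
      refine ⟨s, rbot S, hG, hR, rfl, hF.cl.1, hF.cl.2.2, fun hj => ⟨?_, ?_⟩⟩
      · refine (hF.tb hw hi0 hi1 ((hj0 j hj).le.trans hδ1)).mono ?_
        show ε j ≤ (1 + K (rr i)) * ε j
        nlinarith [h0 j]
      · refine (hF.zm (rr i) hi0 hi1 (hj0 j hj)).mono ?_
        show K (rr i) * ε j ≤ (1 + K (rr i)) * ε j
        nlinarith [h0 j]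
    · intro S x _
      exact ⟨fun _ _ _ => True, fun _ _ => Eventually.of_forall fun _ => trivial, fun J hd a b => absurd ⟨a, b⟩ hi⟩
  refine (((d1.and (DiagTo.all d3)).and (d4.and (d5.and d6))).and (DiagTo.all d7)).mono ?_ ?_
  · intro j S x hx
    obtain ⟨s, R, hG, hR, rfl, hF⟩ := hx
    have hOf : π.Of x s.Q := hG.1
    have hAE : AllE (fun _ t R' => ∀ c : ℝ, 0 ≤ c → c < l0 → ((M + 1 : ℕ) : ℝ) - volKO t R' c ≤ w0 * c + ε' j) S s
        (rbot S) := by
      intro T p B hB c hc0 hc1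
      have h1 : w0 * c < 1 / 2 := by
        rw [hl0, lt_div_iff₀ (by linarith)] at hc1
        linarith
      rw [hε']
      show ((M + 1 : ℕ) : ℝ) - volKO (s.im p B hB) (rbot S) c ≤
        w0 * c + if 2 * ε j < 1 then ε j else ((M + 1 : ℕ) : ℝ)
      split_ifs with h2
      · have h3 := hF.tot T p B hB c hc0 (by linarith)
        have h4 := (abs_le.1 h3).2
        unfold tot at h4
        linarith
      · have h3 : 0 ≤ volKO (s.im p B hB) (rbot S) c := Pool.Agent.Helper29.MX.volKO_nonneg _ _ _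
        have h4 := mul_nonneg hw0.le hc0
        linarith
    refine ⟨⟨⟨⟨s, rbot S, hG, hR, hF.cl, hAE⟩, fun i hi0 hi1 => ?_⟩, dmA_of hG hF.dim, wdR_of hwj hG hF.pol, ?_⟩,
      fun i => ⟨s, rbot S, hG, hR, rfl, hF⟩⟩
    · exact dfA_of hOf (h0 j) fun T p B hB => hF.dfc T p B hB (rr i) hi0 hi1
    · intro d _
      filter_upwards [hR] with k hk
      exact hk.symm
  · rintro S x ⟨⟨⟨⟨s, R, hG, hR, hcl, hst⟩, hx3⟩, hx4, hx5, hx6⟩, hx7⟩
    have hOf : π.Of x s.Q := hG.1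
    have hRb : ∀ᶠ k in UF, R k = rbot S k := by
      filter_upwards [hR, hx6 1 one_pos] with k a b
      have b' : (x k : FMs (S.F k).Ω (M + 1) (Fin r) × Setoid (S.F k).Ω).2 = ⊥ := b
      rw [a, b']
      rfl
    have hdfc : AllE (fun _ (s : MSys _ (M + 1) (lin g) (Fin r)) _ => ∀ b : ℝ, 0 ≤ b → b ≤ 1 →
        H (s.Q.dg b) ≤ (M + q) * b + 0) S s (rbot S) := by
      intro T p B hB b hb0 hb1
      rw [add_zero]
      refine dfc_of_rat (s.Q.im p B) hMq (fun b' h1 h2 => ?_) hb0 hb1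
      have h3 := hx3 (Encodable.encode b')
      rw [hen] at h3
      exact dfA_to hOf (h3 h1 h2) p B hB
    have hStb : Stb 0 s (rbot S) := by
      refine Pool.Agent.Helper70.CPW.Stb_germ (s := s) (R := R) ?_ (hst fun b hb0 hb1 => ?_)
      · filter_upwards [hRb] with k a
        unfold Pool.Agent.Helper70.CPW.gsys
        rw [a]
      · intro T p B hB
        have h1 := hdfc T p B hB b hb0.le hb1
        show H ((s.Q.im p B).dg b) < ((M + 1 : ℕ) : ℝ) * b
        have h2 : H ((s.im p B hB).Q.dg b) ≤ (M + q) * b + 0 := h1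
        have h3 : (M + q) * b < (M + 1) * b := mul_lt_mul_of_pos_right (by linarith) hb0
        push_cast
        have h4 : H ((s.Q.im p B).dg b) ≤ (M + q) * b + 0 := h2
        linarith
    have hz : ∀ c : ℚ, (0 : ℝ) < c → w0 * c < 1 → HZ0 (C m) v q c (zun w0 c) (w0 * c) (κ c) (D1 c)
        (c * (κ c + 1) - zun w0 c) S s := by
      intro c h1 h2
      have h3 := hx7 (Encodable.encode c)
      rw [hen] at h3
      exact h3 h1 h2 s hG
    refine ⟨s, rbot S, hG, ?_, rfl, ⟨⟨hcl.1, Pool.Agent.Helper37.FST.pt_bot s, hcl.2.2⟩, dmA_to hG hx4,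
      wdR_to hwj hG hx5, ?_, hdfc, ?_⟩⟩
    · filter_upwards [hR, hRb] with k a b
      rw [← b]
      exact a
    · intro T p B hB c hc0 hc1
      rw [sub_zero] at hc1
      have h1 : tot (s.im p B hB) (rbot S) c = w0 * c := by
        refine lin_of_rat hw (f := fun c => tot (s.im p B hB) (rbot S) c)
          (fun c c' h => Pool.Agent.Helper84.SEL.tot_mono (S := Sp.im p B) (s.im p B hB) (rbot S) h) ?_ ?_ hc0 hc1
        · have h2 : ((M + 1 : ℕ) : ℝ) - 0 ≤ volKO (s.im p B hB) (rbot S) 0 := hStb T p B hB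
          have h3 := volKO_le_M (s.im p B hB) (rbot S) 0
          show ((M + 1 : ℕ) : ℝ) - volKO (s.im p B hB) (rbot S) 0 = 0
          linarith
        · intro c' h2 h3
          obtain ⟨W, hu, t, p', lam, hZL, hSt⟩ := hz c' h2 h3
          have h4 := zs_tot hZL.zs (Pool.Agent.Helper37.FST.pt_bot (S := S.chg W (zun w0 c') hu) t) hSt T p B hB
          have h5 := hZL.sum
          have h6 := abs_nonpos_iff.1 h5
          show tot (s.im p B hB) (rbot S) c' = w0 * c'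
          have h7 : tot (s.im p B hB) (rbot S) c' = ∑ j, lam j := h4
          rw [h7]
          linarith
      rw [h1, sub_self, abs_zero]
    · intro c h1 h2 h3
      obtain ⟨W, hu, t, p', lam, hZL, hSt⟩ := hz c h1 h2
      rw [mul_zero]
      exact ⟨W, hu, t, p', lam, hZL⟩

end

end Pool.Agent.Helper62.FST
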