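import Pool.Agent.Helper49.KL.Lzt
import Pool.Agent.Helper62.FST.St
import Pool.Agent.Helper63.ZMX.Imx

/-! Limits of zooms, one law: the total exponent of the system and of the limit of zooms, on all events. -/

set_option autoImplicit false

namespace Pool.Agent.Helper62.FST

open Finset Filter Topology Matrix Pool.Agent.Helper69.RK Pool.Agent.Helper31.EC Pool.Agent.Helper31.EC.Sp
open Pool.Agent.Helper40.EL Pool.Agent.Helper89.LX Pool.Agent.Helper84.MT
open Pool.Agent.Helper49.MD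
open Pool.Agent.Helper7.GZ (ZU Rows jac)
open Pool.Agent.Helper7.RD
open Pool.Agent.Helper49.KL
open Pool.Agent.Helper81.CPY (pjb chP zim up_chP ple_chP chP_im ple_im typ_im)
open Pool.Agent.Helper87.NSL (cndR KnS)
open Pool.Agent.Helper89.RAD (cnA DMA)
open Pool.Agent.Helper63.ZMX
open Pool.Agent.Helper29.MX
open Pool.Agent.Helper94.SEL (tot)

noncomputable section

variable {S T : Sp} {N : ℕ} {E E' : ℕ → ℕ} {ι : Type}

section pz

variable [Finite ι] {s : MSys S N E ι} {R : Rsl S} {Z : ZU S} {z : PZ Z s.Q N} {lam : Fin N → ℝ}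
  {t : MSys Z.sp N E' ι} {b : ℝ}

/-- OUTER INEQUALITY, one law -/
theorem pz_up (hT : z.Tri) (hK : KLb s R Z.c Z.l) (hX : t.Q = z.X) (hb : 0 ≤ b)
    (hw : ∀ i, PLe ((t.lf i).win b) (upz Z ((s.lf i).win (Z.c + Z.u * b))))
    (hex : ∀ e : ℝ, 0 < e → Typ (S := Z.l.sp) (fun k (ω : (Z.l k).T.Ω) => ∀ j, 2 ^ ((lam j - e) * (S.F k).n) ≤
      |MvPolynomial.eval (s.Q.v k ((Z.l k).p.π ω)) (MvPolynomial.pderiv j (z.R.p k ω j))|)) :
    Z.u * tot t (roz Z R) b ≤ tot s R (Z.c + Z.u * b) - ∑ j, lam j := by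
  have hKi := KLb_iff.mp hK
  have hdm : DMA s (pR R) (Z.c + Z.u * b) Z.l := hKi.1.mono (by linarith [mul_nonneg Z.hu.le hb])
  have h1 := z.volP_le hT (A := cnA s (pR R) (Z.c + Z.u * b)) (B := cnA t (pR (roz Z R)) b) hdm (fun i => by
    refine ⟨i, ?_⟩
    rcases i with _ | i
    · exact PLe.refl _
    · exact hw i) hKi.2 lam hex (le_refl N)
  rw [← hX] at h1
  have e1 := volP_cnA s R (Z.c + Z.u * b) (le_refl N)
  have e2 := volP_cnA t (roz Z R) b (le_refl N)
  have e3 : volCO (LC.kz (upz Z (pR R))) (cnA t (pR (roz Z R)) b) (pfx t.Q (le_refl N)) =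
      volCO (LC.kz (pR (roz Z R))) (cnA t (pR (roz Z R)) b) (pfx t.Q (le_refl N)) := rfl
  rw [e3, ← e2, ← e1, volP_self, volP_self] at h1
  have e4 : ∑ i : Fin N, lam (Fin.castLE le_rfl i) = ∑ j, lam j := rfl
  rw [e4] at h1
  unfold tot
  linarith

end pz

section one

variable [Finite ι] {s : MSys S N E ι} {R W : Rsl S} {c u : ℝ} {hu : 0 < u} {t : MSys (S.chg W u hu) N E' ι}
  {p : ∀ k, (S.F k).Ω → Fin N → MvPolynomial (Fin N) ℝ} {D : ℕ} {Λ : ℝ} {lam : Fin N → ℝ}

/-- OUTER INEQUALITY on events of extensions of the space of the zoom -/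
theorem zs_up (h : ZS s R W c u hu t p D Λ lam) {b : ℝ} (hb : 0 ≤ b)
    (hw : ∀ i, PLe ((t.lf i).win b) (chP W u hu ((s.lf i).win (c + u * b)))) (q : Pj T (S.chg W u hu))
    (A : ∀ k, (T.F k).Ω → Prop) (hA : 0 < ul (T.pr A)) :
    u * tot (t.im q A hA) R b ≤ tot (s.im (pjX h.zu q) A (prX hA)) R (c + u * b) - ∑ j, lam j := by
  have hw' : ∀ i, PLe (S := (zuX h.zu q A).sp) (((t.im q A hA).lf i).win b) (upz (zuX h.zu q A)
      (((s.im (pjX h.zu q) A (prX hA)).lf i).win ((zuX h.zu q A).c + (zuX h.zu q A).u * b))) := by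
    intro i
    have h2 := ple_im (S := S.chg W u hu) q A hA (hw i)
    have e1 : chP W u hu ((s.lf i).win (c + u * b)) = upz h.zu ((s.lf i).win (c + u * b)) := (up_chP u hu _).symm
    rw [e1] at h2
    have e2 := upz_im (Z := h.zu) (p := q) (A := A) ((s.lf i).win (c + u * b))
    have h3 : PLe (Part.im (S := h.zu.sp) q A ((t.lf i).win b))
      (Part.im (S := h.zu.sp) q A (upz h.zu ((s.lf i).win (c + u * b)))) := h2
    rw [← e2] at h3
    exact h3
  have h2 := pz_up (s := s.im (pjX h.zu q) A (prX hA)) (R := R) (Z := zuX h.zu q A) (z := pzX h.pz hA)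
    (t := t.im q A hA) (lam := lam) h.tri (klbX (Z := h.zu) rfl h.klb hA) rfl hb hw'
    (fun e he => typX (Z := h.zu) (p := q) (A := A) (B := fun k ω => ∀ j, 2 ^ ((lam j - e) * (S.F k).n) ≤
      |MvPolynomial.eval (s.Q.v k ((h.zu.l k).p.π ω)) (MvPolynomial.pderiv j (h.pz.R.p k ω j))|) hA (h.ex e he))
  exact h2

/-- the total exponent of the window `c` is at least the exponent of the rows -/
theorem zs_low (h : ZS s R W c u hu t p D Λ lam) : ∑ j, lam j ≤ tot s R c := by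
  have hKi := KLb_iff.mp h.klb
  have h1 := h.pz.volP_le h.tri (A := cnA s (pR R) c) (B := fun i => upz h.zu (cnA s (pR R) c i)) hKi.1
    (fun i => ⟨i, PLe.refl _⟩) hKi.2 lam h.ex (le_refl N)
  have e1 := volP_self s R c
  rw [volP_cnA] at e1
  have h2 : volCO (LC.kz (upz h.zu (pR R))) (fun i => upz h.zu (cnA s (pR R) c i)) (pfx h.pz.X le_rfl) ≤ (N : ℝ) :=
    volCO_le_M
  have h3 : 0 ≤ h.zu.u * ((N : ℝ) - volCO (LC.kz (upz h.zu (pR R))) (fun i => upz h.zu (cnA s (pR R) c i))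
    (pfx h.pz.X le_rfl)) := mul_nonneg hu.le (by linarith)
  have e4 : ∑ i : Fin N, lam (Fin.castLE le_rfl i) = ∑ j, lam j := rfl
  rw [e4] at h1
  unfold tot
  rw [← e1]
  linarith

/-- THE TOTAL EXPONENT OF THE WINDOW on all events, if the limit of zooms is stable -/
theorem zs_tot (h : ZS s R W c u hu t p D Λ lam) (hRt : Pt (S := S.chg W u hu) t R)
    (hst : Stb (S := S.chg W u hu) 0 t R) : AllE (fun _ t R' => tot t R' c = ∑ j, lam j) S s R := by
  intro T q A hA
  have h' := h.im q A hA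
  have hP : KnS (S := (Sp.im q A).chg W u hu) R (zim q A hA t).Q.v := by
    filter_upwards [hRt] with k hk ω ω' a b c d
    exact hk _ _ (FSp.im_supp (q.fp k) (A k) ω a) (FSp.im_supp (q.fp k) (A k) ω' b) c d
  have hs := hst _ (pjb q W u hu) A hA
  have hs' : (N : ℝ) ≤ volKO (S := (Sp.im q A).chg W u hu) (zim q A hA t) R 0 := by
    have h1 : (N : ℝ) - 0 ≤ volKO (S := (Sp.im q A).chg W u hu) (zim q A hA t) R 0 := hs
    rw [sub_zero] at h1
    exact h1
  have hv := h'.vol_ge hP hs'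
  have hl := zs_low h'
  unfold tot at hl ⊢
  linarith

end one

end

end Pool.Agent.Helper62.FST
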